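import Mathlib
import Pool.Agent.Lib.MP_0496af_nt.Defs
import Pool.Agent.Lib.MP_0496af_nt.Bridge

set_option autoImplicit false

namespace Pool.Agent.Results.MP_0496af_nt.Q1NormalT

open Pool.Agent.Lib.MP_0496af_nt

/-- There is a T-number that is normal in every base. -/
theorem result : ∃ ξ : ℝ, IsTNumber ξ ∧ ∀ b : ℕ, 2 ≤ b → NormalInBase b ξ := by
  obtain ⟨ξ, h1, h2⟩ := exists_normal_T
  refine ⟨ξ, h1.isTNumber, fun b hb k _ d => ?_⟩
  have := normal_of_weyl ξ b hb (h2 b hb) k d
  simp only [digit_eq]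
  simpa only [add_right_comm _ 1] using this

end Pool.Agent.Results.MP_0496af_nt.Q1NormalT
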