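import Mathlib
import Pool.Agent.Lib.MP_0496af_nt.Defs
import Pool.Agent.Lib.MP_0496af_nt.Bridge

set_option autoImplicit false

namespace Pool.Agent.Results.MP_0496af_nt.Q2AbnormalT

open Pool.Agent.Lib.MP_0496af_nt

/-- There is a T-number that is simply normal in no base. -/
theorem result : ∃ ξ : ℝ, IsTNumber ξ ∧ ∀ b : ℕ, 2 ≤ b → ¬ SimplyNormal b ξ := by
  obtain ⟨ξ, h1, h2⟩ := exists_abnormal_T
  refine ⟨ξ, h1.isTNumber, fun b hb hs => ?_⟩
  refine not_tendsto_of_runs _ (1 / (b : ℝ)) ?_ ?_ (hs 0 (by omega))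
  · exact one_div_le_one_div_of_le (by norm_num) (by exact_mod_cast hb)
  · simpa only [digit_eq, Nat.cast_zero] using h2 b hb

end Pool.Agent.Results.MP_0496af_nt.Q2AbnormalT
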